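import Pool.Agent.TH101.RG.GB

set_option autoImplicit false

/-!
# Large least prime summands of all prescribed even numbers near a cluster of primes

The starting result `LeastSummand` gives one even number `m` in every interval `(M, M + X]` whose least Goldbach
summand is `≥ c F(X)`, `F(x) = log x (log₂ x)³ log₄ x / (log₃ x)²`. Here the even numbers `m = a n + b`, `b` in an
arbitrary set `B`, are tied to a cluster of primes `n + t_j` of an arbitrary admissible tuple (coloured
Maynard-Tao theorem), and all of them have no summand up to `c F(X)/|B|` (and no prime `p` in this range makes `m + p`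
prime), except for the trivial representations `m = p + a (n + t_j)`.

The covering sieve of helper256 and team and the Maynard-Tao sieve in the record windows of helper312's team and
helper362 (starting files) with arbitrary prime-free patterns, and the mean value of the weights `N/φ(N)` over shifted
primes (Brun-Titchmarsh, helper602) (`Pool.Agent.TH101.RG`).
-/

open Filter

namespace Pool.Agent.Results.MP_bae66e_nt.NearClusteredPrimes

/-- `F(x) = log x (log₂ x)³ log₄ x / (log₃ x)²` (iterated natural logarithms). -/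
noncomputable def F (x : ℝ) : ℝ :=
  Real.log x * (Real.log (Real.log x)) ^ 3 * Real.log (Real.log (Real.log (Real.log x))) /
    (Real.log (Real.log (Real.log x))) ^ 2

/-- There is `η > 0` and for every `m` there is `K ≥ m` such that the following holds. Let `A, D, J, A₀` be given and
`d` squarefree. There is `c > 0` such that for all large `X`: let `t_1, …, t_K` be distinct integers of
`[0, (log X)²]` such that for every prime `p` the `v + t_j` are prime to `p` for some `v`, let the `h + t_j` be prime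
to `d`, let the `K` indices be coloured with `m` colours, each used at least `K/(2m)` times, let `a ≠ 0` be an integer
with `|a| ≤ (log X)^D`, `|a| ≤ A₀ φ(|a|)`, and let `B` be a set of at most `(log X)^(1/2)` integers `b` with
`|b| ≤ log X (log₂ X)^A`. Then for at least `X^(9/10)` integers `n ≡ h (mod d)` of `(X, 3X]` at least `η m` of the
colours contain an index `j` with `n + t_j` prime, and for all `b ∈ B`, all primes `p ≤ c F(X)/|B|` and both signs
`σ = ±1`, the number `a n + b + σ p` is not of the form `i q` with `1 ≤ |i| ≤ J` and `q` prime, unless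
`b + σ p = a t_j` for some `j`. -/
theorem result : ∃ η : ℝ, 0 < η ∧ ∀ m : ℕ, 1 ≤ m → ∃ K : ℕ, m ≤ K ∧
    ∀ (A D J : ℕ) (A₀ : ℝ) (d : ℕ), Squarefree d → ∃ c : ℝ, 0 < c ∧ ∃ X₀ : ℝ, ∀ X : ℝ, X₀ ≤ X →
    ∀ t : Fin K → ℕ, Function.Injective t → (∀ j, (t j : ℝ) ≤ (Real.log X) ^ 2) →
    (∀ p : ℕ, p.Prime → ∃ v : ℕ, ∀ j, ¬ p ∣ v + t j) →
    ∀ h : ℕ, (∀ j, (h + t j).Coprime d) →
    ∀ col : Fin K → Fin m, (∀ e, K ≤ 2 * m * {j | col j = e}.ncard) →
    ∀ a : ℤ, a ≠ 0 → |(a : ℝ)| ≤ (Real.log X) ^ D → |(a : ℝ)| ≤ A₀ * (a.natAbs.totient : ℝ) →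
    ∀ B : Finset ℤ, (B.card : ℝ) ^ 2 ≤ Real.log X →
    (∀ b ∈ B, |(b : ℝ)| ≤ Real.log X * (Real.log (Real.log X)) ^ A) →
      X ^ (9 / 10 : ℝ) ≤ ({n : ℕ | X < n ∧ (n : ℝ) ≤ 3 * X ∧ n ≡ h [MOD d] ∧
        η * m ≤ ({e : Fin m | ∃ j, col j = e ∧ (n + t j).Prime}.ncard : ℝ) ∧
        ∀ b ∈ B, ∀ p : ℕ, p.Prime → B.card * (p : ℝ) ≤ c * F X → ∀ σ : ℤ, (σ = 1 ∨ σ = -1) →
          (∀ j, b + σ * p ≠ a * t j) →
          ∀ i : ℤ, 1 ≤ |i| → |i| ≤ J → ∀ q : ℕ, q.Prime → i * q ≠ a * n + b + σ * p}.ncard : ℝ) := by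
  classical
  obtain ⟨η, hη, H⟩ := Pool.Agent.TH101.RG.goldbach_clusters
  refine ⟨η, hη, fun m hm => ?_⟩
  obtain ⟨K, hmK, HK⟩ := H m hm
  refine ⟨K, hmK, fun A D J A₀ d hd => ?_⟩
  obtain ⟨c, hc, hX⟩ := HK A D J A₀ d hd
  obtain ⟨X₀, hX₀⟩ := eventually_atTop.1 hX
  refine ⟨c, hc, X₀, fun X hXX t htinj htl hadm h hh col hcol a ha haD haφ B hBc hB => ?_⟩
  set S := {n : ℕ | X < n ∧ (n : ℝ) ≤ 3 * X ∧ n ≡ h [MOD d] ∧
        η * m ≤ ({e : Fin m | ∃ j, col j = e ∧ (n + t j).Prime}.ncard : ℝ) ∧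
        ∀ b ∈ B, ∀ p : ℕ, p.Prime → B.card * (p : ℝ) ≤ c * F X → ∀ σ : ℤ, (σ = 1 ∨ σ = -1) →
          (∀ j, b + σ * p ≠ a * t j) →
          ∀ i : ℤ, 1 ≤ |i| → |i| ≤ J → ∀ q : ℕ, q.Prime → i * q ≠ a * n + b + σ * p} with hS
  have hfin : S.Finite := by
    apply (Set.finite_Iic ⌊3 * X⌋₊).subset
    intro p hp
    exact Set.mem_Iic.2 (Nat.le_floor hp.2.1)
  by_contra hcon
  push Not at hcon
  rw [Set.ncard_eq_toFinset_card S hfin] at hcon
  obtain ⟨n, hXn, hn3, hnb, hnd, ⟨E, hE1, hE2⟩, hmain⟩ := hX₀ X hXX a ha haD haφ t htinj htl hadm h hh col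
    (fun e => by
      have h1 : {j | col j = e}.ncard = Pool.Agent.H362R2.RQ.fib col e := by
        rw [Set.ncard_eq_toFinset_card']
        unfold Pool.Agent.H362R2.RQ.fib
        congr 1
        ext j
        simp
      rw [← h1]
      exact hcol e) B hB hBc hfin.toFinset hcon.le
  apply hnb
  rw [Set.Finite.mem_toFinset]
  refine ⟨hXn, hn3, hnd, hE1.trans ?_, fun b hb p hp hpc σ hσ hne i hi1 hiJ q hq => ?_⟩
  · have h1 : (E : Set (Fin m)) ⊆ {e : Fin m | ∃ j, col j = e ∧ (n + t j).Prime} := fun e he => hE2 e he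
    have h2 := Set.ncard_le_ncard h1 (Set.toFinite _)
    rw [Set.ncard_coe_finset] at h2
    exact_mod_cast h2
  · have h1 : F X = Pool.Agent.H256R2.SC.ff X * Real.log (Real.log X) := by
      unfold F Pool.Agent.H256R2.SC.ff
      ring
    rw [h1] at hpc
    rw [add_assoc]
    exact hmain b hb p hp hpc σ hσ hne i hi1 hiJ q hq

end Pool.Agent.Results.MP_bae66e_nt.NearClusteredPrimes
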