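import Pool.Agent.TH872.Mir7

/-!
# Goldbach pairs in short windows, and the least summand, for almost all palindromes

Definitions used:
* in `Pool.Agent.H560R3.GB`: `C₂`: the twin prime constant `∏_{p > 2} (1 - 1 / (p - 1) ^ 2)`; `sing m`: the
  singular series `2 C₂ ∏_{p ∣ m, p > 2} (p - 1) / (p - 2)`;
* in `Pool.Agent.TH872.Tr`: `num b k E`: the number of the palindromes with exactly `k` digits in base `b`
  which have the property `E`; `value b k κ c d z`: the integer `c + κ v`, where `v` has the pair of digits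
  `d i` at the positions `i` and `k - 1 - i`, for `i < k / 2`, and, if `k` is odd, the middle digit `z`;
  `Prob b k w u E`: the probability of the event `E` if the pairs `d i` and `z` are chosen independently of
  each other with the distributions `w i` and `u`; `Pairs b k η w`: the `w i` are distributions of pairs of
  digits, and two independent copies of the pair number `i` (`i ≥ 1`) differ in both digits with a
  probability of at least `η`.
-/

set_option autoImplicit false

namespace Pool.Agent.Results.MP_bae66e_nt.PalindromeWindows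

open Finset Pool.Agent.H560R3.GB Pool.Agent.TH872.Tr

/-- The number of primes `p` with `y₁ < p ≤ y₂` such that `m - p` is a prime. -/
def R (m y₁ y₂ : ℕ) : ℕ := ((Ioc y₁ y₂).filter (fun p => p.Prime ∧ (m - p).Prime)).card

/-- (1) There is a prime `p ≤ m / log ^ A m` such that `m - p` is a prime (thus `g(m) ≤ m / log ^ A m`
in the notation of the problem); (2) in every window `(y₁, y₂]` of a length of at least `m / log ^ A m`
with `0 ≤ y₁ < y₂ ≤ m` the number of primes `p` such that `m - p` is a prime agrees with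
`sing m * (y₂ - y₁) / log ^ 2 m` up to a relative error of at most `ε`. -/
def Holds (ε : ℝ) (A m : ℕ) : Prop :=
  (∃ p : ℕ, p.Prime ∧ (m - p).Prime ∧ (p : ℝ) ≤ m / Real.log m ^ A) ∧
  ∀ y₁ y₂ : ℕ, y₁ < y₂ → y₂ ≤ m → (m : ℝ) / Real.log m ^ A ≤ (y₂ : ℝ) - y₁ →
    |(R m y₁ y₂ : ℝ) - sing m * ((y₂ : ℝ) - y₁) / Real.log m ^ 2| ≤ ε * (sing m * ((y₂ : ℝ) - y₁) / Real.log m ^ 2)

lemma holds_of (A : ℕ) (ε : ℝ) (hε : 0 < ε) : ∃ m₀ : ℕ, ∀ m : ℕ, m₀ ≤ m → 2 ∣ m →
    Pool.Agent.W93.PG.WinP (min ε (1 / 2)) (A + 1) m → Holds ε A m := by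
  obtain ⟨n1, h1⟩ := Pool.Agent.H373R2.T7.ev_L' 2
  obtain ⟨n2, h2⟩ := Pool.Agent.H373R2.T7.ev_log' (A + 1) 1
  refine ⟨n1 + n2 + 4, ?_⟩
  intro m hm _ hwin
  have a1 := h1 m (by omega)
  have a2 := h2 m (by omega)
  have hm4 : (4 : ℝ) ≤ m := by exact_mod_cast (by omega : 4 ≤ m)
  have hm0 : (0 : ℝ) < m := by linarith
  rw [one_mul] at a2
  obtain ⟨M, hM⟩ : ∃ M, M = Real.log (m : ℝ) := ⟨_, rfl⟩
  have hs := Pool.Agent.W93.GB.one_le_sing m
  unfold Pool.Agent.W93.PG.WinP at hwin
  unfold Holds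
  rw [← hM] at a1 a2 hwin ⊢
  have hM1 : 1 ≤ M := by linarith
  have hM0 : 0 < M := by linarith
  have hmm : √(m : ℝ) * √(m : ℝ) = m := Real.mul_self_sqrt hm0.le
  have hsm0 : 0 < √(m : ℝ) := Real.sqrt_pos.2 hm0
  have hle : (m : ℝ) / M ^ (A + 1) ≤ m / M ^ A := by
    apply div_le_div_of_nonneg_left hm0.le (by positivity)
    exact pow_le_pow_right₀ hM1 (by omega)
  have hR : ∀ y₁ y₂, Pool.Agent.W93.PG.cnt m y₁ y₂ = R m y₁ y₂ := fun _ _ => rfl
  simp only [hR] at hwin
  have hsm : √(m : ℝ) ≤ m / M ^ (A + 1) := by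
    rw [le_div_iff₀ (by positivity)]
    calc √(m : ℝ) * M ^ (A + 1) ≤ √(m : ℝ) * √(m : ℝ) := mul_le_mul_of_nonneg_left a2 hsm0.le
      _ = m := hmm
  have hsm2 : 2 ≤ √(m : ℝ) := by
    apply Real.le_sqrt_of_sq_le
    linarith
  constructor
  · obtain ⟨y, hy⟩ : ∃ y, y = ⌈(m : ℝ) / M ^ (A + 1)⌉₊ := ⟨_, rfl⟩
    have hy1 : (m : ℝ) / M ^ (A + 1) ≤ y := by rw [hy]; exact Nat.le_ceil _
    have hy2 : (y : ℝ) ≤ m / M ^ (A + 1) + 1 := by rw [hy]; exact (Nat.ceil_lt_add_one (by positivity)).le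
    have hy3 : (y : ℝ) ≤ m / M ^ A := by
      have e : (m : ℝ) / M ^ A = m / M ^ (A + 1) * M := by rw [pow_succ]; field_simp
      have h5 : (m : ℝ) / M ^ (A + 1) * 2 ≤ m / M ^ (A + 1) * M := mul_le_mul_of_nonneg_left a1 (by positivity)
      rw [e]
      linarith
    have hy4 : y ≤ m := by
      have h5 : (m : ℝ) / M ^ A ≤ m := div_le_self hm0.le (one_le_pow₀ hM1)
      exact_mod_cast hy3.trans h5
    have hy0 : 0 < y := by
      have : (0 : ℝ) < y := by linarith
      exact_mod_cast this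
    have hw := hwin 0 y hy0 hy4 (by push_cast; linarith)
    have hmain : 0 < sing m * ((y : ℝ) - (0 : ℕ)) / M ^ 2 := by
      have : (0 : ℝ) < (y : ℝ) - (0 : ℕ) := by push_cast; linarith
      positivity
    have h6 : |(R m 0 y : ℝ) - sing m * ((y : ℝ) - (0 : ℕ)) / M ^ 2| ≤ 1 / 2 * (sing m * ((y : ℝ) - (0 : ℕ)) / M ^ 2) :=
      hw.trans (mul_le_mul_of_nonneg_right (min_le_right _ _) hmain.le)
    have h7 : (0 : ℝ) < R m 0 y := by
      rw [abs_le] at h6
      linarith [h6.1]
    have h8 : 0 < R m 0 y := by exact_mod_cast h7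
    unfold R at h8
    rw [card_pos] at h8
    obtain ⟨p, hp⟩ := h8
    rw [mem_filter, mem_Ioc] at hp
    have h9 : (p : ℝ) ≤ y := by exact_mod_cast hp.1.2
    exact ⟨p, hp.2.1, hp.2.2, h9.trans hy3⟩
  · intro y₁ y₂ h12 hy2 hΔ
    have hw := hwin y₁ y₂ h12 hy2 (hle.trans hΔ)
    refine hw.trans ?_
    apply mul_le_mul_of_nonneg_right (min_le_left _ _)
    have h5 : (0 : ℝ) ≤ (y₂ : ℝ) - y₁ := by
      have : (y₁ : ℝ) ≤ y₂ := by exact_mod_cast h12.le
      linarith
    positivity

/-- Let `b ≥ 2`, `B`, `A`, `U`, `κ ≠ 0`, `η > 0` and `ε > 0` be fixed, let `k` be large, and let `c` be an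
arbitrary integer with `|c| ≤ B b ^ k`.

(1) Let `v` be a random integer with `k` digits in base `b`, such that the pairs formed by the digits at
the positions `i` and `k - 1 - i` are independent of each other for different `i`. Inside of a pair the
digits may depend on each other in an arbitrary way; the distributions of the pairs are arbitrary (and
depend on the position and on `k`), only two independent copies of a pair (with `i ≥ 1`) should differ in
both digits with a probability of at least `η`. Then, with a probability of at least `1 - 1 / k ^ U`, the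
integer `m = c + κ v` has the following property: if `m` is positive and even, then there is a prime
`p ≤ m / log ^ A m` such that `m - p` is a prime, and in all windows of length at least `m / log ^ A m` the
number of such primes is as predicted, up to a relative error of at most `ε`.

(2) In particular this holds for all the palindromes `v` with `k` digits in base `b`, up to a proportion of
at most `1 / k ^ U` of them. -/
theorem result (b B A U : ℕ) (hb : 2 ≤ b) (κ : ℤ) (hκ : κ ≠ 0) (η ε : ℝ) (hη : 0 < η) (hε : 0 < ε) :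
    ∃ k₀ : ℕ, ∀ k : ℕ, k₀ ≤ k → ∀ c : ℤ, |c| ≤ B * (b : ℤ) ^ k →
      (∀ (w : ℕ → ℕ × ℕ → ℝ) (u : ℕ → ℝ), Pairs b k η w → (∀ a, 0 ≤ u a) → ∑ a ∈ range b, u a = 1 →
        Prob b k w u (fun d z => 0 < value b k κ c d z ∧ Even (value b k κ c d z) ∧
          ¬ Holds ε A (value b k κ c d z).toNat) ≤ 1 / (k : ℝ) ^ U) ∧
      (num b k (fun v => 0 < c + κ * v ∧ Even (c + κ * v) ∧ ¬ Holds ε A (c + κ * v).toNat) : ℝ) ≤
        num b k (fun _ => True) / (k : ℝ) ^ U := by
  obtain ⟨m₀, h0⟩ := holds_of A ε hε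
  obtain ⟨k₀, h⟩ := transfer b B U hb κ _ (Pool.Agent.TH872.Mir.mir_windows b B U (A + 1) m₀ hb κ hκ (min ε (1 / 2))
    (lt_min hε (by norm_num)) (Holds ε A) h0) η hη
  refine ⟨k₀, fun k hk c hc => ?_⟩
  exact h k hk c hc (fun n => 0 < n ∧ Even n ∧ ¬ Holds ε A n.toNat) (fun n hn => hn)

end Pool.Agent.Results.MP_bae66e_nt.PalindromeWindows
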