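import Pool.Agent.Results.MP_bae66e_nt.ThinFamilySmallPrimes
import Pool.Agent.TH872.GQ.Fam

/-!
# Small prime summands in Goldbach representations of quadratic values at integers with restricted digits

Definitions used: in `Pool.Agent.H560R3.GB`: `sing m`: the singular series
`2 C₂ ∏_{p ∣ m, p > 2} (p - 1) / (p - 2)`, where `C₂ = ∏_{p > 2} (1 - 1 / (p - 1) ^ 2)`; in `Pool.Agent.TH872.GQ`:
`S b D k`: the integers below `b ^ k` whose `i`-th digit in base `b` lies in `D i`, for all `i < k`;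
`value κ β c n = c + κ n ^ 2 + β n`.
-/

set_option autoImplicit false

namespace Pool.Agent.Results.MP_bae66e_nt.QuadraticWindows

open Finset Pool.Agent.H560R3.GB Pool.Agent.TH872.GQ

/-- The number of primes `p` with `y₁ < p ≤ y₂` such that `m - p` is a prime. -/
def R (m y₁ y₂ : ℕ) : ℕ := ((Ioc y₁ y₂).filter (fun p => p.Prime ∧ (m - p).Prime)).card

/-- (1) There is a prime `p ≤ m / log ^ A m` such that `m - p` is a prime (thus `g(m) ≤ m / log ^ A m`
in the notation of the problem); (2) in every window `(y₁, y₂]` of a length of at least `m / log ^ A m`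
with `0 ≤ y₁ < y₂ ≤ m / log m` the number of primes `p` such that `m - p` is a prime agrees with
`sing m * (y₂ - y₁) / log ^ 2 m` up to a relative error of at most `ε`. -/
def Holds (ε : ℝ) (A m : ℕ) : Prop :=
  (∃ p : ℕ, p.Prime ∧ (m - p).Prime ∧ (p : ℝ) ≤ m / Real.log m ^ A) ∧
  ∀ y₁ y₂ : ℕ, y₁ < y₂ → (y₂ : ℝ) ≤ m / Real.log m → (m : ℝ) / Real.log m ^ A ≤ (y₂ : ℝ) - y₁ →
    |(R m y₁ y₂ : ℝ) - sing m * ((y₂ : ℝ) - y₁) / Real.log m ^ 2| ≤ ε * (sing m * ((y₂ : ℝ) - y₁) / Real.log m ^ 2)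

open Classical in
/-- Let `b ≥ 2`, integers `κ ≠ 0` and `β`, and `B`, `A`, `U` and `ε > 0` be fixed, and let `k` be large. Let
`D 0, …, D (k - 1)` be arbitrary sets of at least two digits in base `b`, let `S` be the set of the integers below
`b ^ k` whose `i`-th digit lies in `D i` for all `i < k`, and let `c` be an arbitrary integer with `|c| ≤ B b ^ (2 k)`.
Then for all `n ∈ S`, except for at most `#S / k ^ U` of them, the integer `m = c + κ n ^ 2 + β n` is `≤ 0`, or odd, or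
there is a prime `p ≤ m / log ^ A m` such that `m - p` is a prime, and in all windows of length at least
`m / log ^ A m` in `(0, m / log m]` the number of such primes is as predicted, up to a relative error of at most `ε`. -/
theorem result (b B A U : ℕ) (hb : 2 ≤ b) (κ β : ℤ) (hκ : κ ≠ 0) (ε : ℝ) (hε : 0 < ε) :
    ∃ k₀ : ℕ, ∀ k : ℕ, k₀ ≤ k → ∀ D : ℕ → Finset ℕ, (∀ i < k, D i ⊆ range b ∧ 2 ≤ (D i).card) →
      ∀ c : ℤ, |c| ≤ B * (b : ℤ) ^ (2 * k) →
      (((S b D k).filter (fun n => 0 < value κ β c n ∧ Even (value κ β c n) ∧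
        ¬ Holds ε A (value κ β c n).toNat)).card : ℝ) ≤ (S b D k).card / (k : ℝ) ^ U := by
  obtain ⟨h, B', k1, hh, hB1, hBB, hfam⟩ := fam b hb κ β hκ B
  obtain ⟨n3, h3⟩ := Pool.Agent.Results.MP_bae66e_nt.ThinFamilySmallPrimes.first h A 1 1 U hh ε hε
  refine ⟨k1 + n3 + 2, fun k hk D hD c hc => ?_⟩
  obtain ⟨f1, f2, f3, f4⟩ := hfam k (by omega) D hD c hc
  obtain ⟨N, hN⟩ : ∃ N : ℕ, N = B' * b ^ (2 * k) := ⟨_, rfl⟩
  have hkN : k ≤ N := by
    rw [hN]
    calc k ≤ 2 * k := by omega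
      _ ≤ b ^ (2 * k) := (Nat.lt_pow_self (by omega)).le
      _ ≤ _ := Nat.le_mul_of_pos_left _ (by omega)
  rw [← hN] at f1 f2 f3
  have hfc : Fintype.card {n // n ∈ S b D k} = (S b D k).card := Fintype.card_coe _
  have r2 := h3 N (by omega) {n // n ∈ S b D k} (fun i => value κ β c i.1) (fun i => by
    have := (abs_le.1 (f1 i)).2
    push_cast
    linarith) f2
  rw [hfc] at r2
  have r3 := r2.trans (pow_of_log _ _ (Nat.cast_nonneg _) k U (by omega) f3)
  unfold Pool.Agent.Results.MP_bae66e_nt.ThinFamilySmallPrimes.exceptions at r3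
  exact conv (S b D k) (fun n => 0 < value κ β c n ∧ Even (value κ β c n) ∧ ¬ Holds ε A (value κ β c n).toNat) _
    (fun i hi => ⟨hi.1, hi.2.1, fun hg => hi.2.2 hg⟩) _ r3

end Pool.Agent.Results.MP_bae66e_nt.QuadraticWindows
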