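import Pool.Agent.TH935.GF
import Pool.Agent.TH935.GF2

/-!
# Small prime summands in Goldbach representations, for almost all members of arbitrary thin families
of integers of nearly minimal additive energy

Definition used (in `Pool.Agent.H560R3.GB`): `sing m`: the singular series
`2 C₂ ∏_{p ∣ m, p > 2} (p - 1) / (p - 2)`, where `C₂ = ∏_{p > 2} (1 - 1 / (p - 1) ^ 2)`.
-/

set_option autoImplicit false

namespace Pool.Agent.Results.MP_bae66e_nt.ThinFamilySmallPrimes

open Finset Pool.Agent.H560R3.GB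

/-- The number of primes `p` with `y₁ < p ≤ y₂` such that `m - p` is a prime. -/
def R (m y₁ y₂ : ℕ) : ℕ := ((Ioc y₁ y₂).filter (fun p => p.Prime ∧ (m - p).Prime)).card

/-- (1) There is a prime `p ≤ m / log ^ A m` such that `m - p` is a prime (thus `g(m) ≤ m / log ^ A m`
in the notation of the problem); (2) in every window `(y₁, y₂]` of a length of at least `m / log ^ A m`
with `0 ≤ y₁ < y₂ ≤ m / log m` the number of primes `p` such that `m - p` is a prime agrees with
`sing m * (y₂ - y₁) / log ^ 2 m` up to a relative error of at most `ε`. -/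
def Holds (ε : ℝ) (A m : ℕ) : Prop :=
  (∃ p : ℕ, p.Prime ∧ (m - p).Prime ∧ (p : ℝ) ≤ m / Real.log m ^ A) ∧
  ∀ y₁ y₂ : ℕ, y₁ < y₂ → (y₂ : ℝ) ≤ m / Real.log m → (m : ℝ) / Real.log m ^ A ≤ (y₂ : ℝ) - y₁ →
    |(R m y₁ y₂ : ℝ) - sing m * ((y₂ : ℝ) - y₁) / Real.log m ^ 2| ≤ ε * (sing m * ((y₂ : ℝ) - y₁) / Real.log m ^ 2)

/-- The additive energy of order `h` of a finite family of integers `v i`: the number of solutions of
`v (a 1) + ... + v (a h) = v (b 1) + ... + v (b h)`. -/
noncomputable def energy (h : ℕ) {ι : Type} [Fintype ι] (v : ι → ℤ) : ℕ :=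
  Nat.card {q : (Fin h → ι) × (Fin h → ι) // ∑ j, v (q.1 j) = ∑ j, v (q.2 j)}

/-- The number of representations of `t` as `v (a 1) + ... + v (a h)`. -/
noncomputable def reps (h : ℕ) {ι : Type} [Fintype ι] (v : ι → ℤ) (t : ℤ) : ℕ :=
  Nat.card {a : Fin h → ι // ∑ j, v (a j) = t}

open Classical in
/-- The number of the members `v i` of the family which are positive and even, and for which `Holds`
fails. -/
noncomputable def exceptions (ε : ℝ) (A : ℕ) {ι : Type} [Fintype ι] (v : ι → ℤ) : ℕ :=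
  (univ.filter (fun i => 0 < v i ∧ Even (v i) ∧ ¬ Holds ε A (v i).toNat)).card

theorem first (h A B C U : ℕ) (hh : 1 ≤ h) (ε : ℝ) (hε : 0 < ε) :
    ∃ N₀ : ℕ, ∀ N : ℕ, N₀ ≤ N → ∀ (ι : Type) [Fintype ι] (v : ι → ℤ),
      (∀ i, v i ≤ B * N) →
      (energy h v : ℝ) * N ≤ Real.log N ^ C * (Fintype.card ι : ℝ) ^ (2 * h) →
      (exceptions ε A v : ℝ) ≤ Fintype.card ι / Real.log N ^ U := by
  classical
  obtain ⟨n1, h1⟩ := Pool.Agent.H373R2.T7.ev_L' 2
  obtain ⟨n2, h2⟩ := Pool.Agent.H373R2.T7.ev_log' (A + 1) 1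
  have hP : ∀ m : ℕ, n1 + n2 + 4 ≤ m → 2 ∣ m → Pool.Agent.W93.PG.WinP (min ε (1 / 2)) (A + 1) m → Holds ε A m := by
    intro m hm _ hwin
    have a1 := h1 m (by omega)
    have a2 := h2 m (by omega)
    have hm4 : (4 : ℝ) ≤ m := by exact_mod_cast (by omega : 4 ≤ m)
    have hm0 : (0 : ℝ) < m := by linarith
    rw [one_mul] at a2
    obtain ⟨M, hM⟩ : ∃ M, M = Real.log (m : ℝ) := ⟨_, rfl⟩
    have hs := Pool.Agent.W93.GB.one_le_sing m
    unfold Pool.Agent.W93.PG.WinP at hwin
    unfold Holds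
    rw [← hM] at a1 a2 hwin ⊢
    have hM1 : 1 ≤ M := by linarith
    have hM0 : 0 < M := by linarith
    have hmm : √(m : ℝ) * √(m : ℝ) = m := Real.mul_self_sqrt hm0.le
    have hsm0 : 0 < √(m : ℝ) := Real.sqrt_pos.2 hm0
    have hle : (m : ℝ) / M ^ (A + 1) ≤ m / M ^ A := by
      apply div_le_div_of_nonneg_left hm0.le (by positivity)
      exact pow_le_pow_right₀ hM1 (by omega)
    have hR : ∀ y₁ y₂, Pool.Agent.W93.PG.cnt m y₁ y₂ = R m y₁ y₂ := fun _ _ => rfl
    simp only [hR] at hwin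
    have hsm : √(m : ℝ) ≤ m / M ^ (A + 1) := by
      rw [le_div_iff₀ (by positivity)]
      calc √(m : ℝ) * M ^ (A + 1) ≤ √(m : ℝ) * √(m : ℝ) := mul_le_mul_of_nonneg_left a2 hsm0.le
        _ = m := hmm
    have hsm2 : 2 ≤ √(m : ℝ) := by
      apply Real.le_sqrt_of_sq_le
      linarith
    constructor
    · obtain ⟨y, hy⟩ : ∃ y, y = ⌈(m : ℝ) / M ^ (A + 1)⌉₊ := ⟨_, rfl⟩
      have hy1 : (m : ℝ) / M ^ (A + 1) ≤ y := by rw [hy]; exact Nat.le_ceil _
      have hy2 : (y : ℝ) ≤ m / M ^ (A + 1) + 1 := by rw [hy]; exact (Nat.ceil_lt_add_one (by positivity)).le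
      have hy3 : (y : ℝ) ≤ m / M ^ A := by
        have e : (m : ℝ) / M ^ A = m / M ^ (A + 1) * M := by rw [pow_succ]; field_simp
        have h5 : (m : ℝ) / M ^ (A + 1) * 2 ≤ m / M ^ (A + 1) * M := mul_le_mul_of_nonneg_left a1 (by positivity)
        rw [e]
        linarith
      have hy4 : y ≤ m := by
        have h5 : (m : ℝ) / M ^ A ≤ m := div_le_self hm0.le (one_le_pow₀ hM1)
        exact_mod_cast hy3.trans h5
      have hy0 : 0 < y := by
        have : (0 : ℝ) < y := by linarith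
        exact_mod_cast this
      have hw := hwin 0 y hy0 hy4 (by push_cast; linarith)
      have hmain : 0 < sing m * ((y : ℝ) - (0 : ℕ)) / M ^ 2 := by
        have : (0 : ℝ) < (y : ℝ) - (0 : ℕ) := by push_cast; linarith
        positivity
      have h6 : |(R m 0 y : ℝ) - sing m * ((y : ℝ) - (0 : ℕ)) / M ^ 2| ≤ 1 / 2 * (sing m * ((y : ℝ) - (0 : ℕ)) / M ^ 2) :=
        hw.trans (mul_le_mul_of_nonneg_right (min_le_right _ _) hmain.le)
      have h7 : (0 : ℝ) < R m 0 y := by
        rw [abs_le] at h6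
        linarith [h6.1]
      have h8 : 0 < R m 0 y := by exact_mod_cast h7
      unfold R at h8
      rw [card_pos] at h8
      obtain ⟨p, hp⟩ := h8
      rw [mem_filter, mem_Ioc] at hp
      have h9 : (p : ℝ) ≤ y := by exact_mod_cast hp.1.2
      exact ⟨p, hp.2.1, hp.2.2, h9.trans hy3⟩
    · intro y₁ y₂ h12 hy2 hΔ
      have hy2' : y₂ ≤ m := by
        have : (y₂ : ℝ) ≤ m := hy2.trans (div_le_self hm0.le hM1)
        exact_mod_cast this
      have hw := hwin y₁ y₂ h12 hy2' (hle.trans hΔ)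
      refine hw.trans ?_
      apply mul_le_mul_of_nonneg_right (min_le_left _ _)
      have h5 : (0 : ℝ) ≤ (y₂ : ℝ) - y₁ := by
        have : (y₁ : ℝ) ≤ y₂ := by exact_mod_cast h12.le
        linarith
      positivity
  obtain ⟨N₀, h0⟩ := Pool.Agent.TH935.GF.transfer h B C U (Holds ε A) (by
    intro B C U
    exact Pool.Agent.TH935.GF.fam_win h B C (A + 1) U (n1 + n2 + 4) hh (min ε (1 / 2))
      (lt_min hε (by norm_num)) (Holds ε A) hP)
  refine ⟨N₀, fun N hN ι _ v hv hE => ?_⟩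
  unfold exceptions
  refine h0 N hN ι v hv hE _ ?_
  intro i hi
  rw [mem_filter] at hi
  exact hi.2

/-- Let `h ≥ 1`, `A`, `B`, `C`, `U` and `ε > 0` be fixed, and let `N` be large. Let `v i`, `i ∈ ι`, be an
arbitrary finite family of integers `≤ B N`.

* Suppose that the additive energy of order `h` of the family is at most `log ^ C N` times
  `(#ι) ^ (2 h) / N` (up to the power of the logarithm this is the least possible energy of a family with
  members in `[0, N]`, and the family may have as few as `N ^ (1 / h)` members). Then for all of its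
  positive even members `m`, with at most `#ι / log ^ U N` exceptions, there is a prime
  `p ≤ m / log ^ A m` such that `m - p` is a prime, and in all windows of length at least `m / log ^ A m`
  in `(0, m / log m]` the number of such primes is as predicted, up to a relative error of at most `ε`.
* In particular this holds if no integer has more than `log ^ C N` representations as a sum of `h` members
  of the family, and `(#ι) ^ h ≥ N / log ^ C N`.

(Both hypotheses are invariant under translations: the results hold in every translate of the family.) -/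
theorem result (h A B C U : ℕ) (hh : 1 ≤ h) (ε : ℝ) (hε : 0 < ε) :
    (∃ N₀ : ℕ, ∀ N : ℕ, N₀ ≤ N → ∀ (ι : Type) [Fintype ι] (v : ι → ℤ),
      (∀ i, v i ≤ B * N) →
      (energy h v : ℝ) * N ≤ Real.log N ^ C * (Fintype.card ι : ℝ) ^ (2 * h) →
      (exceptions ε A v : ℝ) ≤ Fintype.card ι / Real.log N ^ U) ∧
    (∃ N₀ : ℕ, ∀ N : ℕ, N₀ ≤ N → ∀ (ι : Type) [Fintype ι] (v : ι → ℤ),
      (∀ i, v i ≤ B * N) →
      (∀ t, (reps h v t : ℝ) ≤ Real.log N ^ C) →
      (N : ℝ) ≤ Real.log N ^ C * (Fintype.card ι : ℝ) ^ h →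
      (exceptions ε A v : ℝ) ≤ Fintype.card ι / Real.log N ^ U) := by
  refine ⟨first h A B C U hh ε hε, ?_⟩
  obtain ⟨N₀, h0⟩ := first h A B (2 * C) U hh ε hε
  obtain ⟨N₁, h1⟩ := Pool.Agent.H373R2.T7.ev_L' 1
  refine ⟨N₀ + N₁, fun N hN ι _ v hv hJ hx => ?_⟩
  apply h0 N (by omega) ι v hv
  have hL := h1 N (by omega)
  have hL0 : 0 ≤ Real.log N := by linarith
  have h2 : (energy h v : ℝ) ≤ (Fintype.card ι : ℝ) ^ h * Real.log N ^ C :=
    Pool.Agent.TH935.GF.En_le h v _ hJ
  calc (energy h v : ℝ) * N ≤ ((Fintype.card ι : ℝ) ^ h * Real.log N ^ C) * (Real.log N ^ C * (Fintype.card ι : ℝ) ^ h) :=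
        mul_le_mul h2 hx (Nat.cast_nonneg _) (by positivity)
    _ = Real.log N ^ (2 * C) * (Fintype.card ι : ℝ) ^ (2 * h) := by ring

end Pool.Agent.Results.MP_bae66e_nt.ThinFamilySmallPrimes
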